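import Pool.Agent.Q103.SF.Fin
import Pool.Agent.Q239.SF.W4
import Pool.Agent.Q239.SF.W5

/-!
# Surfaces which carry a map with many preperiodic points: notions of hyperbolicity
-/

set_option autoImplicit false

namespace Pool.Agent.Q103.SF

open FF Polynomial
open Pool.Agent.W602.GT
open Pool.Agent.Q103.EC (ManyPrep)

/-- **Hyperbolicity of surfaces which carry a map with many preperiodic points.** -/
theorem surface_tfae (d : ℕ) (hd : 2 ≤ d) : ∃ B : ℕ, ∀ (K : Type) [Field K] [Algebra ℂ K]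
    (p q : K[X]), ManyPrep ℂ d B p q → Algebra.trdeg ℂ K = (2 : ℕ) → ∀ (M : ℕ)
    (x : Fin (M + 1) → K), x ≠ 0 → coords ℂ x = ⊤ → GeneralType ℂ K 2 ∧ SpecialSets x ∧
      List.TFAE [KobayashiHyp x, BrodyHyp x, PicardHyp x, NoMero x, NoElliptic x, AlgHyp x,
        AllGeneral x, GeomHyp x, lowCurves x = ∅] := by
  obtain ⟨B, hB⟩ := surface_special d hd
  refine ⟨B, fun K _ _ p q h htr M x hx hgen => ?_⟩
  obtain ⟨h1, h2⟩ := hB K p q h htr M x hx hgen
  exact ⟨h1, h2, tfae Pool.Agent.Q95.SF.wei Pool.Agent.Q239.SF.ptd Pool.Agent.Q239.SF.kob h2⟩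

end Pool.Agent.Q103.SF
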