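import Pool.Agent.Q103.SF.Ent
import Pool.Agent.Q96.HE.Main

/-!
# Curves in surfaces
-/

set_option autoImplicit false
set_option maxHeartbeats 400000
set_option linter.overlappingInstances false
set_option linter.unusedSectionVars false

namespace Pool.Agent.Q103.SF

open FF
open Pool.Agent.W602.GT
open Pool.Agent.Y216 (OnVar)
open Pool.Agent.W603.LV (canDeg)
open Pool.Agent.W603.PV (pht)
open Pool.Agent.TH466.QG (SubOf)
open Pool.Agent.Q103.EC (HypOff)
open Pool.Agent.Q96.HE (IsMap eul vanForms surface)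
open Pool.Agent.Q96.LS (CentreIn LiesIn nonconst_of Norm)
open Pool.Agent.Q271.RC (IsGeneric IsPoint Nonconst)

variable {M : ℕ} {K : Type} [Field K] [Algebra ℂ K] {x : Fin (M + 1) → K}

/-- no place has its centre in the empty set -/
theorem not_centre {L : Type} [Field L] [Algebra ℂ L] {v : Fin (M + 1) → L}
    (hv : ∃ j, v j ≠ 0) (P : Place ℂ L) :
    ¬ CentreIn ({1} : Set (MvPolynomial (Fin (M + 1)) ℂ)) v P := by
  classical
  intro h
  obtain ⟨j0, hj0⟩ := hv
  let s : Finset (Fin (M + 1)) := Finset.univ.filter fun j => v j ≠ 0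
  have hs : s.Nonempty := ⟨j0, Finset.mem_filter.2 ⟨Finset.mem_univ _, hj0⟩⟩
  obtain ⟨j, hj, hmin⟩ := s.exists_min_image (fun j => P.ord (v j)) hs
  have hN : Norm P v (P.ord (v j)) := ⟨fun i hi =>
    hmin i (Finset.mem_filter.2 ⟨Finset.mem_univ _, hi⟩), j, (Finset.mem_filter.1 hj).2, rfl⟩
  rcases h _ hN 1 rfl 0 (MvPolynomial.isHomogeneous_one _ _) with h1 | h1
  · rw [map_one] at h1
    exact one_ne_zero h1
  · rw [map_one, P.ord_one] at h1
    simp at h1

theorem eul_one {L : Type} [Field L] [Algebra ℂ L] [IsFF ℂ L] {v : Fin (M + 1) → L}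
    (hv : ∃ j, v j ≠ 0) :
    eul ({1} : Set (MvPolynomial (Fin (M + 1)) ℂ)) v = canDeg ℂ L := by
  unfold eul
  have h1 : {P : Place ℂ L | CentreIn ({1} : Set (MvPolynomial (Fin (M + 1)) ℂ)) v P} = ∅ := by
    ext P
    simp only [Set.mem_ofPred_eq, Set.mem_empty_iff_false, iff_false]
    exact not_centre hv P
  rw [h1, Set.ncard_empty]
  simp

theorem not_lies {L : Type} [Field L] [Algebra ℂ L] {v : Fin (M + 1) → L} :
    ¬ LiesIn ({1} : Set (MvPolynomial (Fin (M + 1)) ℂ)) v := by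
  intro h
  have h1 := h 1 rfl
  rw [map_one] at h1
  exact one_ne_zero h1

theorem van_eq {L : Type} [Field L] [Algebra ℂ L] (v : Fin (M + 1) → L) : van v = vanForms v := rfl

theorem low_eq : lowCurves x = Pool.Agent.Q96.HE.lowCurves x {1} := by
  ext V
  constructor
  · rintro ⟨L, i1, i2, i3, v, ⟨hv0, hv⟩, hgen, hc, rfl⟩
    have hg : IsGeneric v := ⟨hv0, hgen⟩
    refine ⟨L, i1, i2, i3, v, ⟨fun G D hG hGx => hv G ⟨D, hG⟩ hGx, not_lies, nonconst_of hg (by
      rw [IsFF.trdeg (k := ℂ) (K := L)]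
      simp)⟩, hg, ?_, rfl⟩
    rw [eul_one hv0]
    exact hc
  · rintro ⟨L, i1, i2, i3, v, hv, hg, hc, rfl⟩
    refine ⟨L, i1, i2, i3, v, ⟨hg.1, fun G hG hGx => ?_⟩, hg.2, ?_, rfl⟩
    · obtain ⟨D, hD⟩ := hG
      exact hv.point G D hD hGx
    · rw [eul_one hg.1] at hc
      exact hc

/-- curves of general type -/
theorem pos_of_gt {L : Type} [Field L] [Algebra ℂ L] [IsFF ℂ L] (h : GeneralType ℂ L 1) :
    0 < canDeg ℂ L := by
  obtain ⟨h1, N, hN, ω, h2, h3, h4⟩ := h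
  have h5 : LogGeneralType ℂ L 1 (fun _ => False) := by
    refine ⟨h1, N, hN, ω, h2, fun P hP j D hD => ?_, fun P hP _ j => h3 P hP j, h4⟩
    refine h3 P hP j D fun i f hf => ?_
    by_cases hf0 : f = 0
    · rw [hf0, map_zero]
      exact Or.inl rfl
    have h6 := P.reg_mul (hD i f) hf
    rwa [div_mul_cancel₀ _ hf0] at h6
  have h6 := Pool.Agent.Q96.HE.pos_of_lgt (Bd := fun _ : Place ℂ L => False) (by simp) h5
  simpa using h6

/-- **Curves in surfaces.** -/
theorem alg (htr : Algebra.trdeg ℂ K = (2 : ℕ)) (hx : x ≠ 0) (hgen : coords ℂ x = ⊤)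
    {R : MvPolynomial (Fin (M + 1)) ℂ} (hR : HypOff x R) :
    (lowCurves x).Finite ∧
    (∃ A : ℕ, ∀ (L : Type) [Field L] [Algebra ℂ L] [IsFF ℂ L] (v : Fin (M + 1) → L),
      OnVar ℂ x v → Nonconst v → pht ℂ v ≤ A * canDeg ℂ L ∨ van v ∈ lowCurves x) ∧
    ∀ (E : Type) [Field E] [Algebra ℂ E] (w : ℕ) (z : Fin (M + 1) → E), SubOf ℂ x z → 1 ≤ w →
      Algebra.trdeg ℂ E = w → GeneralType ℂ E w ∨ van z ∈ lowCurves x := by
  classical
  obtain ⟨e, he⟩ := hR.form
  obtain ⟨A, hA⟩ := hR.degree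
  have hb : IsGeneric x := ⟨by
    obtain ⟨i, hi⟩ := Function.ne_iff.1 hx
    exact ⟨i, hi⟩, hgen⟩
  have hon : ∀ (L : Type) [Field L] [Algebra ℂ L] (v : Fin (M + 1) → L), IsPoint x v →
      (∃ j, v j ≠ 0) → OnVar ℂ x v := fun L _ _ v hv hv0 => ⟨hv0, fun G hG hGx => by
    obtain ⟨D, hD⟩ := hG
    exact hv G D hD hGx⟩
  -- points of transcendence degree two
  have htwo : ∀ (L : Type) [Field L] [Algebra ℂ L] (v : Fin (M + 1) → L), IsPoint x v →
      IsGeneric v → Algebra.trdeg ℂ L = (2 : ℕ) → GeneralType ℂ L 2 := by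
    intro L _ _ v hv hvg ht
    obtain ⟨-, hiso⟩ := Pool.Agent.Q96.OS.gen_point' hb htr L v 2 hv hvg ht
    obtain ⟨σ, l, hl, hvl, -⟩ := hiso rfl
    refine hR.sub L 2 v ⟨?_, hvg.2, fun G hG hGx => (hon L v hv hvg.1).2 G hG hGx⟩ ?_ (by norm_num)
      ht
    · intro h0
      obtain ⟨j, hj⟩ := hvg.1
      exact hj (congrFun h0 j)
    · have h1 : val v R = l ^ e * σ (val x R) := by
        have h2 : v = fun i => l * (fun i => σ (x i)) i := funext hvl
        have h3 : val (fun i => σ (x i)) R = σ (val x R) := by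
          unfold Pool.Agent.W602.GT.val
          rw [MvPolynomial.comp_aeval_apply]
        rw [h2, val_smul he, h3]
      rw [h1]
      exact mul_ne_zero (pow_ne_zero _ hl) ((map_ne_zero σ).2 hR.ne)
  obtain ⟨h1, ⟨A', h2⟩, -, -, -, -⟩ := surface (b := x) (d := 2) hb htr le_rfl
    (D := ({1} : Set (MvPolynomial (Fin (M + 1)) ℂ))) (by
      intro F hF
      rw [Set.mem_singleton_iff] at hF
      rw [hF]
      exact ⟨0, MvPolynomial.isHomogeneous_one _ _⟩) (by
      intro L _ _ v hv hvg _ ht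
      obtain ⟨g1, N, hN, ω, g2, g3, g4⟩ := htwo L v hv hvg ht
      refine ⟨g1, N, hN, ω, g2, fun P hP j D hD => ?_, fun P hP _ j => g3 P hP j, g4⟩
      refine g3 P hP j D fun i f hf => ?_
      by_cases hf0 : f = 0
      · rw [hf0, map_zero]
        exact Or.inl rfl
      have h6 := P.reg_mul (hD i f) hf
      rwa [div_mul_cancel₀ _ hf0] at h6) (G := R) (E := e) (R := A) he hR.ne (by
      intro L _ _ _ v hv hvR
      have hv0 : ∃ j, v j ≠ 0 := by
        obtain ⟨i, j, hj, -⟩ := hv.nonconst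
        exact ⟨j, hj⟩
      rw [eul_one hv0]
      have h3 := hA L v (hon L v hv.point hv0) hvR
      have h4 := Pool.Agent.Q96.LS.pht_pos v hv.nonconst
      rcases le_or_gt (canDeg ℂ L) 0 with h5 | h5
      · rw [max_eq_right h5, mul_zero] at h3
        omega
      · rwa [max_eq_left h5.le] at h3)
  refine ⟨by rw [low_eq]; exact h1, ⟨A', fun L _ _ _ v hv hnc => ?_⟩, ?_⟩
  · have hm : IsMap x ({1} : Set (MvPolynomial (Fin (M + 1)) ℂ)) v :=
      ⟨fun G D hG hGx => hv.2 G ⟨D, hG⟩ hGx, not_lies, hnc⟩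
    rw [low_eq, van_eq]
    have h3 := h2 L v hm
    rwa [eul_one hv.1] at h3
  · intro E _ _ w z hz hw ht
    have hz0 : ∃ j, z j ≠ 0 := by
      obtain ⟨i, hi⟩ := Function.ne_iff.1 hz.ne
      exact ⟨i, hi⟩
    have hzp : IsPoint x z := fun G D hG hGx => hz.spec G ⟨D, hG⟩ hGx
    have hzg : IsGeneric z := ⟨hz0, hz.gen⟩
    obtain ⟨hw2, -⟩ := Pool.Agent.Q96.OS.gen_point' hb htr E z w hzp hzg ht
    rcases (by omega : w = 1 ∨ w = 2) with rfl | rfl
    · have hff : IsFF ℂ E := ⟨Pool.Agent.Q72.NA.ess_of_adjoin hz.gen, by rw [ht]; simp⟩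
      rcases le_or_gt (canDeg ℂ E) 0 with h3 | h3
      · right
        exact ⟨E, inferInstance, inferInstance, hff, z, ⟨hz0, hz.spec⟩, hz.gen, h3, rfl⟩
      · left
        exact gt_of_canDeg h3
    · left
      exact htwo E z hzp hzg ht

end Pool.Agent.Q103.SF
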