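import Pool.Agent.Q103.EC.Stm3
import Pool.Agent.W603.LV.Ex
import Pool.Agent.W603.PV.Defs

/-!
# Curves of small genus in a projective variety
-/

set_option autoImplicit false

namespace Pool.Agent.Q103.SF

open FF Metric
open Pool.Agent.W602.GT
open Pool.Agent.Y216 (OnVar)
open Pool.Agent.W603.LV (canDeg)

/-- The forms which vanish at the point `v`: they determine the closed subvariety of projective space
with the generic point `v`. -/
def van {M : ℕ} {E : Type} [Field E] [Algebra ℂ E] (v : Fin (M + 1) → E) :
    Set (MvPolynomial (Fin (M + 1)) ℂ) :=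
  {G | IsForm G ∧ val v G = 0}

/-- The forms which vanish on the image of a map `S → ℂ ^ (M + 1)`, `t ↦ f t`: they determine its
Zariski closure in projective space. -/
def vanOn {M : ℕ} {S : Type} (A : Set S) (f : S → Fin (M + 1) → ℂ) :
    Set (MvPolynomial (Fin (M + 1)) ℂ) :=
  {G | IsForm G ∧ ∀ t ∈ A, MvPolynomial.eval (f t) G = 0}

/-- The closed curves of geometric genus at most one in the projective variety with the generic point
`x`, each given by the set of the forms which vanish on it (`L` is the function field of the curve, `v`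
its generic point, `canDeg ℂ L = 2 g - 2`). -/
def lowCurves {M : ℕ} {K : Type} [Field K] [Algebra ℂ K] (x : Fin (M + 1) → K) :
    Set (Set (MvPolynomial (Fin (M + 1)) ℂ)) :=
  {V | ∃ (L : Type) (_ : Field L) (_ : Algebra ℂ L) (_ : IsFF ℂ L) (v : Fin (M + 1) → L),
    OnVar ℂ x v ∧ coords ℂ v = ⊤ ∧ canDeg ℂ L ≤ 0 ∧ V = van v}

end Pool.Agent.Q103.SF
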