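import Pool.Agent.Q103.SF.Defs
import Pool.Agent.Q103.KO.Defs
import Pool.Agent.Q271.RC.Defs
import Pool.Agent.TH466.QG.Strong
import Pool.Agent.W602.RG.Stm3
import Pool.Agent.Y221.PD.Defs

/-!
# Special sets and notions of hyperbolicity

`X` is the projective variety over `ℂ` with the generic point `x` and the function field `K`. A closed
subset of `X` is given by the set of the forms which vanish on it.
-/

set_option autoImplicit false
set_option linter.overlappingInstances false

namespace Pool.Agent.Q103.SF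

open FF Metric
open Pool.Agent.W602.GT
open Pool.Agent.Y221.PD
open Pool.Agent.Y221.BD (EntireCurve)
open Pool.Agent.Y216 (OnVar)
open Pool.Agent.W603.LV (canDeg)
open Pool.Agent.W603.PV (pht)
open Pool.Agent.Q271.RC (Nonconst)
open Pool.Agent.TH466.QG (SubOf)
open Pool.Agent.W602.RG (PointedMaps)
open Pool.Agent.Q103.KO (IsPoint SameP Chain)

/-- `E` is the function field of an elliptic curve, given by a Weierstrass equation. -/
def IsElliptic (E : Type) [Field E] [Algebra ℂ E] : Prop :=
  ∃ (a b : ℂ) (x y : E), 4 * a ^ 3 + 27 * b ^ 2 ≠ 0 ∧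
    y ^ 2 = x ^ 3 + algebraMap ℂ E a * x + algebraMap ℂ E b ∧ IntermediateField.adjoin ℂ {x, y} = ⊤

/-- The equations of the union of the closed curves of genus `≤ 1` in `X`. -/
def lowForms {M : ℕ} {K : Type} [Field K] [Algebra ℂ K]
    (x : Fin (M + 1) → K) : Set (MvPolynomial (Fin (M + 1)) ℂ) :=
  {G | IsForm G ∧ ∀ V ∈ lowCurves x, G ∈ V}

/-- The equations of the closure of the union of the closed subvarieties of positive dimension of `X`
which are not of general type. -/
def algForms {M : ℕ} {K : Type} [Field K] [Algebra ℂ K]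
    (x : Fin (M + 1) → K) : Set (MvPolynomial (Fin (M + 1)) ℂ) :=
  {G | IsForm G ∧ ∀ (E : Type) [Field E] [Algebra ℂ E] (w : ℕ) (z : Fin (M + 1) → E), SubOf ℂ x z →
    1 ≤ w → Algebra.trdeg ℂ E = w → ¬ GeneralType ℂ E w → val z G = 0}

/-- The equations of the closure of the union of the images of the nonconstant maps from elliptic
curves to `X`. -/
def ellForms {M : ℕ} {K : Type} [Field K] [Algebra ℂ K]
    (x : Fin (M + 1) → K) : Set (MvPolynomial (Fin (M + 1)) ℂ) :=
  {G | IsForm G ∧ ∀ (E : Type) [Field E] [Algebra ℂ E] [IsFF ℂ E], IsElliptic E →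
    ∀ v : Fin (M + 1) → E, OnVar ℂ x v → Nonconst v → val v G = 0}

/-- The equations of the closure of the union of the images of the nonconstant meromorphic maps from
the spaces `ℂ ^ g` to `X`. -/
def meroForms {M : ℕ} {K : Type} [Field K] [Algebra ℂ K]
    (x : Fin (M + 1) → K) : Set (MvPolynomial (Fin (M + 1)) ℂ) :=
  {G | IsForm G ∧ ∀ g u, MeroMap x g u → ∀ t, MvPolynomial.eval (fun i => u i t) G = 0}

/-- The equations of the closure of the union of the images of the nonconstant entire curves in `X`. -/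
def entForms {M : ℕ} {K : Type} [Field K] [Algebra ℂ K]
    (x : Fin (M + 1) → K) : Set (MvPolynomial (Fin (M + 1)) ℂ) :=
  {G | IsForm G ∧ ∀ f, EntireCurve x f → ∀ t, MvPolynomial.eval (fun i => f i t) G = 0}

/-- `X` is Brody hyperbolic: there is no nonconstant holomorphic map from `ℂ` to `X`. -/
def BrodyHyp {M : ℕ} {K : Type} [Field K] [Algebra ℂ K] (x : Fin (M + 1) → K) : Prop :=
  ∀ f, ¬ EntireCurve x f

/-- `X` is Kobayashi hyperbolic: the Kobayashi pseudodistance separates points. -/
def KobayashiHyp {M : ℕ} {K : Type} [Field K] [Algebra ℂ K] (x : Fin (M + 1) → K) : Prop :=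
  ∀ a b : Fin (M + 1) → ℂ, IsPoint x a → IsPoint x b → ¬ SameP a b →
    ∃ ε : ℝ, 0 < ε ∧ ∀ l : ℝ, Chain x a b l → ε ≤ l

/-- `X` is algebraically hyperbolic: the degree of the nonconstant maps from a curve of genus `g` to `X`
is at most `A * (2 * g - 2)`. -/
def AlgHyp {M : ℕ} {K : Type} [Field K] [Algebra ℂ K] (x : Fin (M + 1) → K) : Prop :=
  ∃ A : ℕ, ∀ (L : Type) [Field L] [Algebra ℂ L] [IsFF ℂ L] (v : Fin (M + 1) → L),
    OnVar ℂ x v → Nonconst v → pht ℂ v ≤ A * canDeg ℂ L

/-- Every closed subvariety of positive dimension of `X` is of general type. -/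
def AllGeneral {M : ℕ} {K : Type} [Field K] [Algebra ℂ K] (x : Fin (M + 1) → K) : Prop :=
  ∀ (E : Type) [Field E] [Algebra ℂ E] (w : ℕ) (z : Fin (M + 1) → E), SubOf ℂ x z → 1 ≤ w →
    Algebra.trdeg ℂ E = w → GeneralType ℂ E w

/-- Every map from an elliptic curve to `X` is constant. -/
def NoElliptic {M : ℕ} {K : Type} [Field K] [Algebra ℂ K] (x : Fin (M + 1) → K) : Prop :=
  ∀ (E : Type) [Field E] [Algebra ℂ E] [IsFF ℂ E], IsElliptic E → ∀ v : Fin (M + 1) → E,
    OnVar ℂ x v → ¬ Nonconst v

/-- For every pointed curve the morphisms to `X` with a given value at the marked point are finite in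
number. -/
def GeomHyp {M : ℕ} {K : Type} [Field K] [Algebra ℂ K] (x : Fin (M + 1) → K) : Prop :=
  ∀ (E : Type) [Field E] [Algebra ℂ E] [IsFF ℂ E] (c : Place ℂ E), ∀ a ∈ VarPts ℂ x,
    (PointedMaps x c a).Finite

/-- Every holomorphic map from the punctured disc to `X` extends to the disc. -/
def PicardHyp {M : ℕ} {K : Type} [Field K] [Algebra ℂ K] (x : Fin (M + 1) → K) : Prop :=
  ∀ f, ¬ EssentialDisc x f

/-- Every meromorphic map from `ℂ ^ g` to `X` is constant. -/
def NoMero {M : ℕ} {K : Type} [Field K] [Algebra ℂ K] (x : Fin (M + 1) → K) : Prop :=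
  ∀ g u, ¬ MeroMap x g u

/-- All the special subsets of the projective variety `X` with the generic point `x` are equal to the
union of the closed curves of geometric genus `≤ 1` in `X`, and these are finite in number. -/
structure SpecialSets {M : ℕ} {K : Type} [Field K] [Algebra ℂ K] (x : Fin (M + 1) → K) : Prop where
  /-- the closed curves of genus `≤ 1` in `X` are finite in number -/
  finite : (lowCurves x).Finite
  /-- the Zariski closure of an entire curve is a curve of genus `≤ 1` -/
  entire : ∀ f, EntireCurve x f → vanOn Set.univ (fun t i => f i t) ∈ lowCurves x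
  /-- each curve of genus `≤ 1` is the Zariski closure of an entire curve -/
  curves : ∀ V ∈ lowCurves x, ∃ f, EntireCurve x f ∧ vanOn Set.univ (fun t i => f i t) = V
  /-- each curve of genus `≤ 1` is the image of an elliptic curve -/
  elliptic : ∀ V ∈ lowCurves x, ∃ (E : Type) (_ : Field E) (_ : Algebra ℂ E) (_ : IsFF ℂ E)
    (v : Fin (M + 1) → E), IsElliptic E ∧ OnVar ℂ x v ∧ Nonconst v ∧ van v = V
  /-- the Zariski closure of a meromorphic image of `ℂ ^ g` is a curve of genus `≤ 1` -/
  mero : ∀ g u, MeroMap x g u → vanOn Set.univ (fun t i => u i t) ∈ lowCurves x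
  /-- the Zariski closure of the image of a punctured disc with an essential singularity is a curve of
  genus `≤ 1` -/
  disc : ∀ f, EssentialDisc x f → vanOn (ball (0 : ℂ) 1 \ {0}) f ∈ lowCurves x
  /-- every closed subvariety of positive dimension is of general type or a curve of genus `≤ 1` -/
  sub : ∀ (E : Type) [Field E] [Algebra ℂ E] (w : ℕ) (z : Fin (M + 1) → E), SubOf ℂ x z → 1 ≤ w →
    Algebra.trdeg ℂ E = w → GeneralType ℂ E w ∨ van z ∈ lowCurves x
  /-- for every map from a curve of genus `g` to `X`, the degree is at most `A * (2 * g - 2)`, or the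
  image is a curve of genus `≤ 1` -/
  degree : ∃ A : ℕ, ∀ (L : Type) [Field L] [Algebra ℂ L] [IsFF ℂ L] (v : Fin (M + 1) → L),
    OnVar ℂ x v → Nonconst v → pht ℂ v ≤ A * canDeg ℂ L ∨ van v ∈ lowCurves x

end Pool.Agent.Q103.SF
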