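import Pool.Agent.Q103.EC.Defs
import Pool.Agent.Q103.EC.Stm3
import Pool.Agent.Y221.AP.Main
import Pool.Agent.W603.LV.Ex
import Pool.Agent.W602.GT.Defs

/-!
# Project SF: surfaces which carry a map with many preperiodic points. Statements

Entire curves in a surface of the class of the project EC (every projective surface whose function
field carries a map with many preperiodic points and generically finite moduli map) are contained in
finitely many curves of geometric genus `≤ 1`. All statements are classical theorems on curves.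
-/

set_option autoImplicit false

namespace Pool.Agent.Q103.SF

open FF
open Pool.Agent.W602.GT
open Pool.Agent.Y221.AP (MK MDer Om MInf)
open Pool.Agent.W603.LV (canDeg)

/-- (G1) **Picard's theorem for curves of genus `≥ 2`**: a holomorphic map from a punctured disc
(`MK`: the field of the meromorphic functions near infinity) to a curve of general type extends.

Proof. `E` has transcendence degree one (`GeneralType`), so `IsFF ℂ E` (function field of a curve; the
places `P` of `E` are the points of the curve). Let `ω 0`, `ω 1`, `N` be the pluricanonical forms of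
`GeneralType ℂ E 1`; every place of `E` is `Divisorial 1` (`Pool.Agent.Q96.HE.divisorial_one`). Let
`D₀ = der ℂ E ≠ 0`, `g j = ω j (fun _ => D₀)`; the derivation of `GeneralType` is a multiple of `D₀`
(`der_smul`), so `g 0 ≠ 0` and `g 1 / g 0` is transcendental (see the proof of `pos_of_lgt` in
`Pool/Agent/Q96/HE/Lgt.lean`). For a place `P` with uniformizer `π` let `D_P = (D₀ π)⁻¹ • D₀`; it is
regular at `P` (`der_reg`), so `ω j (fun _ => D_P) = g j / (D₀ π) ^ N` is regular at `P`.

The functions. Let `x : E` be transcendental. For all but finitely many `P` either `P.ord x ≠ 0` or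
`P.ord (D_P x) = 0` (`P.ord (D_P x) = P.ord (D₀ x) - P.ord (D₀ π)`, and the divisors of `D₀ x` and of
`D₀` (`vo`) are finite: `exists_supp` and the like). Let `u` be the list `1, x` followed by one
uniformizer for each of these finitely many places. So for every place `P` of `E` there is `j` with
`P.ord (u j) ≠ 0` or `P.ord (u j) = 0 = P.ord (D_P (u j))`; in both cases
`P.ord (D_P (u j) / u j) ≤ 0` (it is `-1` in the first case, `ord_der`). Let `T` be the finite set of
the poles of the `u j`, `m` the maximal order of a pole. For `P ∈ T` let `h_P = α g 0 + β g 1` with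
constants `(α, β) ≠ 0` such that `h_P / (D₀ π) ^ N` vanishes at `P` (the residue field is `ℂ`; `h_P ≠ 0`
because `g 1 / g 0` is not constant). Let `s = ∏_{P ∈ T} h_P ^ m` and `N' = N * m * |T|`. So for all `P`
and `i` the element `s * u i / (D₀ π) ^ N'` is regular at `P`.

The meromorphic function. Write `ι = algebraMap E MK`, `κ = MDer (ι x) / ι (D₀ x)`. Then
`MDer (ι f) = κ * ι (D₀ f)` for all `f : E` (both sides are derivations of `E` with values in `MK` which
agree at `x`, and `E` is algebraic over `ℂ(x)`), and `κ ≠ 0` (`MDer y = 0` only for constants: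
`MD_zero`, and `ι x` is not constant). Put `F = ι s * κ ^ N' ≠ 0`. Apply
`S_ana` (`Pool.Agent.Q184.EC.t_ana`) to `ι ∘ u` and `F`:

(key) Let `L'` be a field over `E` with `κ : L'`, `v` a place of `L'`. (a) If `v.ord (ι f) = 0` for all
`f ≠ 0` in `E` and `v.Reg κ`, then `v.Reg (ι (s * u i) * κ ^ N')`. (b) If not, `v` is over a place `P` of
`E` (`exists_over`, `Over v P e`), and if `v.Reg (κ * ι (D₀ π))`, then again
`v.Reg (ι (s * u i) * κ ^ N')`: it is `ι (s * u i / (D₀ π) ^ N') * (κ * ι (D₀ π)) ^ N'`.

(1) `F * ι (u i)` is regular at all `z ∈ Om`: let `v` be the place of `MK` of `S_plc`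
(`Q103/EC/Stm2.lean`, proved; see `Pool/Agent/Q103/EC/All.lean`). In case (a) `κ` is regular because
`MDer (ι x)` is and `ι (D₀ x)` is a unit; in case (b) `κ * ι (D₀ π) = MDer (ι π)` is regular.

(2) `F * ι (u i)` is integral over `Algebra.adjoin ℂ (range fun j => MDer (ι (u j)) / ι (u j))`: use the
valuative criterion `S_val` (`Q103/EC/Stm2.lean`, proved: `Pool.Agent.Q149.EC.t_val`) in the field
`L' = IntermediateField.adjoin ℂ (ι(E) ∪ {κ})`, finitely generated, with
`B = {κ * ι (D₀ (u j)) / ι (u j)}`, and map the result to `MK`. Let `v` be a place of `L'` where the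
elements of `B` are regular. In case (a) the element of `B` for `x` shows that `κ` is regular. In case
(b) choose `j` for `P` as above: `κ * ι (D₀ π) * ι (D_P (u j) / u j)` is in `B`, so regular, and
`v.ord (ι (D_P (u j) / u j)) ≤ 0`, so `κ * ι (D₀ π)` is regular.

So `MInf (ι x)`, and every element of `E` is algebraic over `ℂ(x)`: `minf_of_alg`. -/
def S_gpc : Prop :=
  ∀ (E : Type) [Field E] [Algebra ℂ E] [Algebra.EssFiniteType ℂ E] [Algebra E MK]
    [IsScalarTower ℂ E MK], GeneralType ℂ E 1 → ∀ f : E, MInf (algebraMap E MK f)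

/-- (W1) **Elliptic curves have entire parametrizations.** `X = 0` is not excluded by the conclusion,
but the last clause says that the map `(X : Y : Z)` is not constant.

Proof (no lattices; the Poincare function of the duplication map). Let
`F₁ (s, r) = 4 * (s * r ^ 3 + a * s ^ 3 * r + b * s ^ 4)`,
`F₂ (s, r) = (r ^ 2 - a * s ^ 2) ^ 2 - 8 * b * s ^ 3 * r` (forms of degree `4`; the duplication formula is
`x(2 P) = F₂ (1, x) / F₁ (1, x)`). Then `F (s, 1) = (4 s, 1) + O (s ^ 2)`. Let
`G_n w = F^n (w / 4 ^ n, 1)`. Near `w = 0` the sequence converges uniformly to `G = (α, β)` (the difference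
`G_{n+1} w - G_n w = F^n (F (w / 4^{n+1}, 1)) - F^n (4 w / 4^{n+1}, 1)` is at most
`C * 4 ^ n * |w / 4 ^ (n+1)| ^ 2`: the derivative of `F^n` is at most `C * 4 ^ n` on the set of the points
at distance `≤ c / 4 ^ n` of `(0, 1)`, because `F (0, 1) = (0, 1)` and the derivative of `F` at `(0, 1)` is
`4` times the identity), so `G` is holomorphic near `0`, `G w = (w, 1) + O (w ^ 2)` and
`G (4 w) = F (G w)`; by this equation `G` extends to an entire function (on `|w| < 4 ^ n ρ` it is
`F^n (G (w / 4 ^ n))`). (Any other proof is as good; for instance `F^n` of the disc, or power series.)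
Let `q = fun x => x ^ 3 + a x + b`, and `x z = β (z ^ 2) / α (z ^ 2)`, `y = x' / 2`. The function
`x' ^ 2 / (4 * q x)` is invariant under `z ↦ 2 z`, because `x (2 z) = R (x z)`, `R = F₂ (1, x) / F₁ (1, x)`
and `R' ^ 2 * q = 4 * q (R)` (an identity of rational functions, `field_simp; ring`); it is holomorphic
near `0` with value `1` there (`x z = z ^ (-2) + O(1)`), so it is `1`. So `y ^ 2 = q x`; clearing
denominators, with the values of `α`, `β` at `z ^ 2`: `X = β * α`, `Z = α ^ 2`,
`Y = z * (β' * α - β * α')`. (The equation is an identity of entire functions: it is enough to prove it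
near `0`.) -/
def S_wei : Prop :=
  ∀ a b : ℂ, 4 * a ^ 3 + 27 * b ^ 2 ≠ 0 → ∃ X Y Z : ℂ → ℂ,
    Differentiable ℂ X ∧ Differentiable ℂ Y ∧ Differentiable ℂ Z ∧
    (∀ t, Y t ^ 2 * Z t = X t ^ 3 + a * X t * Z t ^ 2 + b * Z t ^ 3) ∧
    ∃ s t, X s * Z t ≠ X t * Z s

/-- (W2) **Curves of genus `≤ 1`** are rational or elliptic. Proof by Riemann-Roch (in the library:
`Pool/Agent/Helper386/D5V/Helper386_FF_RR.lean` and others; `canDeg` is `2 g - 2`): if there is a
function with exactly one pole, of order one, it generates `L`. Otherwise `g = 1` and for a place `P`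
there are `x`, `y` with poles only at `P`, of orders `2` and `3`, and `L = ℂ(x, y)` (the degrees `2` and
`3` are coprime); the seven functions `1, x, y, x ^ 2, x y, x ^ 3, y ^ 2` have poles of order `≤ 6` only
at `P`, so there is a linear relation; complete squares and cubes. If the discriminant is zero then
`L = ℂ(y / (x - c))` for the double root `c`. (Any other proof is as good.) -/
def S_cls : Prop :=
  ∀ (L : Type) [Field L] [Algebra ℂ L] [IsFF ℂ L], canDeg ℂ L ≤ 0 →
    (∃ t : L, IntermediateField.adjoin ℂ {t} = ⊤) ∨
    ∃ (a b : ℂ) (x y : L), 4 * a ^ 3 + 27 * b ^ 2 ≠ 0 ∧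
      y ^ 2 = x ^ 3 + algebraMap ℂ L a * x + algebraMap ℂ L b ∧
      IntermediateField.adjoin ℂ {x, y} = ⊤

/-- (W3) **Curves of genus `≤ 1` are Zariski closures of entire curves.** Proof. By (W2) `L = ℂ(t)` or
`L = ℂ(x, y)`. In the first case write `v i = p i (t) / q (t)` with polynomials, `f i z = p i z` (up to
the common factor `q` the same point). In the second case `v i` is, up to a common factor,
`P i (x) + y Q i (x)` with polynomials `P i`, `Q i` of degree at most `m`; with the functions of (W1)
let `f i = Z ^ (m + 1) * (P i (X / Z) + (Y / Z) * Q i (X / Z))` (a polynomial in `X`, `Y`, `Z`). A form `G`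
vanishes at `f` if and only if `G (P i + y Q i) = A (x) + y B (x)` vanishes after `x ↦ X / Z`,
`y ↦ Y / Z` (in the field of the meromorphic functions on `ℂ`, or at all points with `Z ≠ 0`), if and
only if `A = B = 0`: otherwise `X / Z` would be algebraic over `ℂ`, so constant. (`S_wei`, `S_cls` may be
assumed.) -/
def S_low : Prop :=
  ∀ (L : Type) [Field L] [Algebra ℂ L] [IsFF ℂ L], canDeg ℂ L ≤ 0 → ∀ (M : ℕ)
    (v : Fin (M + 1) → L), v ≠ 0 → coords ℂ v = ⊤ →
    ∃ f : Fin (M + 1) → ℂ → ℂ, (∀ i, Differentiable ℂ (f i)) ∧
      ∀ G : MvPolynomial (Fin (M + 1)) ℂ, IsForm G →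
        ((∀ t, MvPolynomial.eval (fun i => f i t) G = 0) ↔ val v G = 0)

end Pool.Agent.Q103.SF
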