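import Pool.Agent.Q103.SF.Defs
import Pool.Agent.Q103.SF.Stm1
import Pool.Agent.Q53.EC.Pic
import Pool.Agent.Q96.HE.Main
import Pool.Agent.Y221.PD.Imp

/-!
# Punctured discs in surfaces
-/

set_option autoImplicit false
set_option maxHeartbeats 400000
set_option linter.overlappingInstances false
set_option linter.unusedSectionVars false

namespace Pool.Agent.Q103.SF

open FF Filter IntermediateField
open Pool.Agent.W602.GT Pool.Agent.W603.BP Metric Topology
open Pool.Agent.Y221.AP
open Pool.Agent.Y221.PD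
open Pool.Agent.Y216 (OnVar)
open Pool.Agent.W603.LV (canDeg)
open Pool.Agent.Q96.LS (lgt_one)

variable {M : ℕ} {K : Type} [Field K] [Algebra ℂ K] {x : Fin (M + 1) → K}

/-- a holomorphic map from the punctured disc as a point over the field of the functions which are
meromorphic near infinity -/
theorem exists_mk {f : ℂ → Fin (M + 1) → ℂ} (hf : EssentialDisc x f) :
    ∃ z : Fin (M + 1) → MK, (∀ G : MvPolynomial (Fin (M + 1)) ℂ, val z G = 0 ↔
      ∀ t ∈ ball (0 : ℂ) 1 \ {0}, MvPolynomial.eval (f t) G = 0) ∧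
      ∃ j k, z k ≠ 0 ∧ ¬ MInf (z j / z k) := by
  classical
  have hfan : ∀ i, AnalyticOnNhd ℂ (fun w => f w i) (PB 1) := by
    intro i w hw
    exact (hf.hol i).analyticAt (disc_open.mem_nhds (mem_disc.mpr hw))
  have hinvPB : ∀ {z : ℂ}, z ∈ Om → z⁻¹ ∈ PB 1 := by
    intro z hz
    exact inv_mem_PB one_pos (by rwa [inv_one])
  have hPBinv : ∀ {w : ℂ}, w ∈ PB 1 → w⁻¹ ∈ Om := by
    intro w hw
    have := inv_mem_Ext hw
    rwa [inv_one] at this
  have hOm0 : ∀ {z : ℂ}, z ∈ Om → z ≠ 0 := by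
    intro z hz h0
    have h1 : (1 : ℝ) < ‖z‖ := hz
    rw [h0, norm_zero] at h1
    linarith
  obtain ⟨f', hf'⟩ : ∃ f' : Fin (M + 1) → ℂ → ℂ, ∀ i z, f' i z = f z⁻¹ i := ⟨_, fun _ _ => rfl⟩
  have hf'an : ∀ i, ∀ z ∈ Om, AnalyticAt ℂ (f' i) z := by
    intro i z hz
    have h1 : f' i = (fun w => f w i) ∘ fun z => z⁻¹ := by
      funext v
      exact hf' i v
    rw [h1]
    exact AnalyticAt.comp (hfan i _ (hinvPB hz)) (analyticAt_inv (hOm0 hz))
  have hmer : ∀ i, MeromorphicOn (f' i) Om := fun i z hz => (hf'an i z hz).meromorphicAt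
  obtain ⟨z, hzdef⟩ : ∃ z : Fin (M + 1) → MK, z = fun i => cl (f' i) (hmer i) := ⟨_, rfl⟩
  have hcont : ∀ G : MvPolynomial (Fin (M + 1)) ℂ, ∀ t ∈ Om,
      ContinuousAt (fun t => MvPolynomial.eval (fun i => f' i t) G) t := fun G t ht =>
    (MvPolynomial.continuous_eval G).continuousAt.comp
      (continuousAt_pi.2 fun i => (hf'an i t ht).continuousAt)
  have hvz : ∀ G, val z G = 0 ↔ ∀ t ∈ Om, MvPolynomial.eval (fun i => f' i t) G = 0 := by
    intro G
    rw [hzdef, val_cl hmer G, cl_eq_zero]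
    constructor
    · intro h t ht
      exact eq_of_cod (g := fun _ => 0) h ht (hcont G t ht) continuousAt_const
    · intro h
      filter_upwards [cod_Om] with t ht
      exact h t ht
  have hevf : ∀ (G : MvPolynomial (Fin (M + 1)) ℂ) (t : ℂ),
      MvPolynomial.eval (fun i => f' i t) G = MvPolynomial.eval (f t⁻¹) G := by
    intro G t
    have h1 : (fun i => f' i t) = f t⁻¹ := by
      funext i
      rw [hf']
    rw [h1]
  refine ⟨z, fun G => ?_, ?_⟩
  · rw [hvz]
    constructor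
    · intro h t ht
      have h1 := h t⁻¹ (hPBinv (mem_disc.1 ht))
      rw [hevf, inv_inv] at h1
      exact h1
    · intro h t ht
      rw [hevf]
      exact h _ (mem_disc.2 (hinvPB ht))
  by_contra hcon
  push Not at hcon
  apply hf.ess
  refine extends_of f hfan (fun w hw => hf.ne w (mem_disc.2 hw)) fun j k hj hk => ?_
  have hzk : z k ≠ 0 := by
    intro h0
    apply hk
    rw [hzdef] at h0
    have h1 := cl_eq_zero.1 h0
    filter_upwards [PB_mem one_pos] with w hw
    have h2 := eq_of_cod (g := fun _ => 0) h1 (hPBinv hw) (hf'an k _ (hPBinv hw)).continuousAt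
      continuousAt_const
    rw [hf', inv_inv] at h2
    exact h2
  have hjk : MInf (z j / z k) := hcon j k hzk
  refine ⟨fun w => Fn (z j / z k) w⁻¹, hjk, ?_⟩
  have h1 : cl (f' j) (hmer j) = cl (fun t => Fn (z j / z k) t * f' k t)
      ((Fn_mero _).mul (hmer k)) := by
    have h2 : cl (f' j) (hmer j) = z j := by rw [hzdef]
    have h3 : cl (f' k) (hmer k) = z k := by rw [hzdef]
    have h4 : cl (fun t => Fn (z j / z k) t * f' k t) ((Fn_mero _).mul (hmer k)) =
        cl (Fn (z j / z k)) (Fn_mero _) * cl (f' k) (hmer k) := rfl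
    rw [h4, h2, h3, cl_Fn, div_mul_cancel₀ _ hzk]
  rw [cl_eq] at h1
  filter_upwards [hjk.reg, PB_mem one_pos] with w hw1 hw2
  have hwO := hPBinv hw2
  have h2 := eq_of_cod (f := f' j) (g := fun t => Fn (z j / z k) t * f' k t) h1 hwO
    (hf'an j _ hwO).continuousAt (hw1.continuousAt.mul (hf'an k _ hwO).continuousAt)
  rw [hf', hf', inv_inv] at h2
  exact h2

/-- curves with `2 g - 2 > 0` are of general type -/
theorem gt_of_canDeg {L : Type} [Field L] [Algebra ℂ L] [IsFF ℂ L] (h : 0 < canDeg ℂ L) :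
    GeneralType ℂ L 1 := by
  obtain ⟨h1, N, hN, ω, h2, -, h3, h4⟩ := lgt_one (L := L) ∅ (by simpa using h)
  exact ⟨h1, N, hN, ω, h2, fun P hP j => h3 P hP (Finset.notMem_empty P) j, h4⟩

/-- the transcendence degree of the field of a point -/
theorem exists_trdeg_of_gen {E : Type} [Field E] [Algebra ℂ E] {v : Fin (M + 1) → E}
    (hv : coords ℂ v = ⊤) : ∃ w : ℕ, Algebra.trdeg ℂ E = w := by
  have h1 : Algebra.EssFiniteType ℂ E := Pool.Agent.Q72.NA.ess_of_adjoin hv
  have h2 : Algebra.IsAlgebraic (IntermediateField.adjoin ℂ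
      {z | ∃ i j, v j ≠ 0 ∧ z = v i / v j}) E := by
    have h3 : IntermediateField.adjoin ℂ {z | ∃ i j, v j ≠ 0 ∧ z = v i / v j} = ⊤ := hv
    rw [h3]
    infer_instance
  have h3 := alg_adjoin h2
  have hfin : {z : E | ∃ i j, v j ≠ 0 ∧ z = v i / v j}.Finite := by
    refine (Set.finite_range fun p : Fin (M + 1) × Fin (M + 1) => v p.1 / v p.2).subset ?_
    rintro _ ⟨i, j, _, rfl⟩
    exact ⟨(i, j), rfl⟩
  obtain ⟨B, hB, hBb⟩ := exists_isTranscendenceBasis_subset (R := ℂ) (A := E)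
    {z : E | ∃ i j, v j ≠ 0 ∧ z = v i / v j}
  have : Finite B := hfin.subset hB
  refine ⟨Nat.card B, ?_⟩
  rw [← hBb.cardinalMk_eq_trdeg, Nat.cast_card]

/-- **Points of surfaces over the field of the functions meromorphic near infinity.** -/
theorem point_low (hG1 : S_gpc) (htr : Algebra.trdeg ℂ K = (2 : ℕ)) (hx : x ≠ 0)
    (hgen : coords ℂ x = ⊤) {z : Fin (M + 1) → MK}
    (hspec : ∀ G : MvPolynomial (Fin (M + 1)) ℂ, IsForm G → val x G = 0 → val z G = 0)
    {R : MvPolynomial (Fin (M + 1)) ℂ} (hR : IsForm R) (hxR : val x R ≠ 0) (hzR : val z R = 0)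
    {j k : Fin (M + 1)} (hk : z k ≠ 0) (hjk : ¬ MInf (z j / z k)) : van z ∈ lowCurves x := by
  classical
  let E := coords ℂ z
  have hmem : ∀ i, z i / z k ∈ E := fun i => subset_adjoin _ _ ⟨i, k, hk, rfl⟩
  let v : Fin (M + 1) → E := fun i => ⟨z i / z k, hmem i⟩
  have hvz : ∀ i, algebraMap E MK (v i) = z i / z k := fun i => rfl
  have hvk : v k ≠ 0 := by
    intro h0
    have h1 := congrArg (algebraMap E MK) h0
    rw [hvz, map_zero, div_self hk] at h1
    exact one_ne_zero h1
  -- forms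
  have hval : ∀ G : MvPolynomial (Fin (M + 1)) ℂ, IsForm G → (val v G = 0 ↔ val z G = 0) := by
    rintro G ⟨d, hd⟩
    have h1 : algebraMap E MK (val v G) = val (fun i => z i / z k) G := by
      unfold Pool.Agent.W602.GT.val
      rw [← MvPolynomial.aeval_algebraMap_apply]
      rfl
    have h2 : val z G = z k ^ d * val (fun i => z i / z k) G := by
      rw [← val_smul hd (z k)]
      congr 1
      funext i
      field_simp
    rw [h2, mul_eq_zero, or_iff_right (pow_ne_zero _ hk), ← h1, map_eq_zero]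
  -- the ratios generate
  have hvgen : coords ℂ v = ⊤ := by
    have h1 : (coords ℂ v).map (IntermediateField.val E) = (⊤ : IntermediateField ℂ E).map
        (IntermediateField.val E) := by
      have h2 : (⊤ : IntermediateField ℂ E).map (IntermediateField.val E) = E := by
        rw [← AlgHom.fieldRange_eq_map, IntermediateField.fieldRange_val]
      rw [h2]
      show (IntermediateField.adjoin ℂ _).map _ = coords ℂ z
      rw [IntermediateField.adjoin_map]
      unfold coords
      congr 1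
      ext u
      constructor
      · rintro ⟨_, ⟨a, b, hb, rfl⟩, rfl⟩
        have hzb : z b ≠ 0 := by
          intro h0
          apply hb
          apply (algebraMap E MK).injective
          rw [hvz, h0, zero_div, map_zero]
        refine ⟨a, b, hzb, ?_⟩
        show algebraMap E MK (v a / v b) = _
        rw [map_div₀, hvz, hvz]
        field_simp
      · rintro ⟨a, b, hb, rfl⟩
        refine ⟨v a / v b, ⟨a, b, ?_, rfl⟩, ?_⟩
        · intro h0
          have h1 := congrArg (algebraMap E MK) h0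
          rw [hvz, map_zero, div_eq_zero_iff] at h1
          exact h1.elim hb hk
        · show algebraMap E MK (v a / v b) = _
          rw [map_div₀, hvz, hvz]
          field_simp
    exact IntermediateField.map_injective _ h1
  obtain ⟨t, ht⟩ := exists_trdeg_of_gen hvgen
  have hbg : Pool.Agent.Q271.RC.IsGeneric x := ⟨by
    obtain ⟨i, hi⟩ := Function.ne_iff.1 hx
    exact ⟨i, hi⟩, hgen⟩
  have hvg : Pool.Agent.Q271.RC.IsGeneric v := ⟨⟨k, hvk⟩, hvgen⟩
  have hpt : Pool.Agent.Q271.RC.IsPoint x v := fun G D hG hGx =>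
    (hval G ⟨D, hG⟩).2 (hspec G ⟨D, hG⟩ hGx)
  obtain ⟨ht2, hiso⟩ := Pool.Agent.Q96.OS.gen_point' hbg htr E v t hpt hvg ht
  have htne2 : t ≠ 2 := by
    intro h2
    obtain ⟨σ, l, hl, hvl, -⟩ := hiso h2
    obtain ⟨e, he⟩ := hR
    have h1 : val v R = l ^ e * σ (val x R) := by
      have h2 : v = fun i => l * (fun i => σ (x i)) i := funext hvl
      have h3 : val (fun i => σ (x i)) R = σ (val x R) := by
        unfold Pool.Agent.W602.GT.val
        rw [MvPolynomial.comp_aeval_apply]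
      rw [h2, val_smul he, h3]
    have h4 : val v R = 0 := (hval R ⟨e, he⟩).2 hzR
    rw [h4] at h1
    exact mul_ne_zero (pow_ne_zero _ hl) ((map_ne_zero σ).2 hxR) h1.symm
  have htne0 : t ≠ 0 := by
    intro h0
    rw [h0, Nat.cast_zero, trdeg_eq_zero_iff] at ht
    have hint : Algebra.IsIntegral ℂ E := Algebra.isAlgebraic_iff_isIntegral.1 ht
    obtain ⟨c, hc⟩ := (IsAlgClosed.algebraMap_bijective_of_isIntegral (k := ℂ)
      (K := E)).2 (v j)
    apply hjk
    have h2 : z j / z k = algebraMap ℂ MK c := by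
      rw [← hvz j, ← hc]
      rfl
    rw [h2]
    exact MI.algebraMap_mem c
  have ht1 : t = 1 := by omega
  subst ht1
  have hess : Algebra.EssFiniteType ℂ E := Pool.Agent.Q72.NA.ess_of_adjoin hvgen
  have hff : IsFF ℂ E := ⟨hess, by rw [ht]; simp⟩
  refine ⟨E, inferInstance, inferInstance, hff, v, ⟨⟨k, hvk⟩, fun G hG hGx =>
    (hval G hG).2 (hspec G hG hGx)⟩, hvgen, ?_, ?_⟩
  · by_contra hcon
    rw [not_le] at hcon
    have h1 := hG1 E (gt_of_canDeg hcon) (v j)
    rw [hvz] at h1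
    exact hjk h1
  · ext G
    constructor
    · rintro ⟨hG, h⟩
      exact ⟨hG, (hval G hG).2 h⟩
    · rintro ⟨hG, h⟩
      exact ⟨hG, (hval G hG).1 h⟩

/-- **Punctured discs in surfaces.** -/
theorem disc_low (hG1 : S_gpc) (htr : Algebra.trdeg ℂ K = (2 : ℕ)) (hx : x ≠ 0)
    (hgen : coords ℂ x = ⊤) {R : MvPolynomial (Fin (M + 1)) ℂ} (hR : IsForm R)
    (hxR : val x R ≠ 0) {f : ℂ → Fin (M + 1) → ℂ} (hf : EssentialDisc x f)
    (hfR : ∀ t ∈ ball (0 : ℂ) 1 \ {0}, MvPolynomial.eval (f t) R = 0) :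
    vanOn (ball (0 : ℂ) 1 \ {0}) f ∈ lowCurves x := by
  obtain ⟨z, hz, j, k, hk, hjk⟩ := exists_mk hf
  have h1 := point_low hG1 htr hx hgen (z := z) (fun G hG hGx => (hz G).2 (hf.mem G hG hGx)) hR hxR
    ((hz R).2 hfR) hk hjk
  have h2 : van z = vanOn (ball (0 : ℂ) 1 \ {0}) f := by
    ext G
    exact ⟨fun h => ⟨h.1, (hz G).1 h.2⟩, fun h => ⟨h.1, (hz G).2 h.2⟩⟩
  rwa [h2] at h1

end Pool.Agent.Q103.SF
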