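import Pool.Agent.Q103.SF.Main
import Pool.Agent.Q95.SF.Wei

/-!
# Surfaces which carry a map with many preperiodic points: main theorem
-/

set_option autoImplicit false

namespace Pool.Agent.Q103.SF

open FF Polynomial
open Pool.Agent.W602.GT
open Pool.Agent.Q103.EC (ManyPrep)

/-- **Special sets of surfaces which carry a map with many preperiodic points.** -/
theorem surface_special (d : ℕ) (hd : 2 ≤ d) : ∃ B : ℕ, ∀ (K : Type) [Field K] [Algebra ℂ K]
    (p q : K[X]), ManyPrep ℂ d B p q → Algebra.trdeg ℂ K = (2 : ℕ) → ∀ (M : ℕ)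
    (x : Fin (M + 1) → K), x ≠ 0 → coords ℂ x = ⊤ → GeneralType ℂ K 2 ∧ SpecialSets x := by
  obtain ⟨B, hB⟩ := Pool.Agent.Q103.EC.main d hd
  refine ⟨B, fun K _ _ p q h htr M x hx hgen => ?_⟩
  obtain ⟨h1, h2⟩ := hB K p q h 2 (by norm_num) htr
  obtain ⟨R, hR⟩ := h2 M x hx hgen
  exact ⟨h1, special Pool.Agent.Q95.SF.wei htr hx hgen hR⟩

/-- **Examples**: the surfaces of the quadratic maps with a marked point of period `n`. -/
theorem exists_surface (n : ℕ) (hn : 3 ≤ n) : ∃ (K : Type) (_ : Field K) (_ : Algebra ℂ K)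
    (p q : K[X]), ManyPrep ℂ 2 n p q ∧ Algebra.trdeg ℂ K = (2 : ℕ) := by
  obtain ⟨K, i1, i2, p, q, h1, h2⟩ := Pool.Agent.Q103.EC.exists_many 2 le_rfl n hn
  exact ⟨K, i1, i2, p, q, h1, h2⟩

end Pool.Agent.Q103.SF
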