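import Pool.Agent.Q103.SF.Defs
import Pool.Agent.Q103.KO.Defs
import Pool.Agent.W602.RG.Stm3
import Pool.Agent.W602.GT.MordDefs
import Pool.Agent.Q271.RC.Defs

/-!
# Project SF, statements W4 and W5
-/

set_option autoImplicit false

namespace Pool.Agent.Q103.SF

open FF Metric
open Pool.Agent.W602.GT
open Pool.Agent.Y221.BD (EntireCurve)
open Pool.Agent.W602.RG (PointedMaps)
open Pool.Agent.W603.LV (canDeg)
open Pool.Agent.Q103.KO (IsPoint SameP Chain)
open Pool.Agent.Q271.RC (Nonconst)

/-- (W4) **Curves of genus `≤ 1` have infinitely many pointed self-maps.** So for each nonconstant map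
`v` of such a curve (function field `L`) to a projective variety there are a point `c` of the curve and
infinitely many morphisms `f` from the curve to the image of `v` with the same value `a` at `c`.

Proof. (a) Let `σ : L →ₐ[ℂ] L` with `[L : σ L] ≥ 2`, `c` a place of `L`, `e ≥ 1` with
`c.ord (σ f) = e * c.ord f` for all `f ≠ 0`. Scale `v` such that the minimal order of the `v i` at `c` is
zero and let `a i` be the residue of `v i` at `c`. Then `HasValue c a v`, forms which vanish at `v` vanish
at `a`, and for all `n` the point `σ ^ n ∘ v` is in `PointedMaps v c a` (`σ` maps elements with positive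
order at `c` to such elements and respects the constants). These points are different: for a
nonconstant quotient `w = v i / v j` we have `hgt (σ ^ n w) = [L : σ L] ^ n * hgt w`
(`hgt_eq_finrank`: `hgt w = [L : ℂ(w)]`), or any other argument.

(b) By (W2), `S_cls` (which may be assumed; it is proved: `Pool.Agent.Q111.SF.cls`), `L` is of one of two
types. If `L = ℂ(t)` let `σ t = t ^ 2`, `c` the place `t = 0`, `e = 2`.

(c) If `L = ℂ(x, y)`, `y ^ 2 = q x`, `q x = x ^ 3 + a x + b`, let `σ` be the duplication:
`x' = (q' x ^ 2 - 8 x q x) / (4 q x)`, `y' = y * (d x' / d x) / 2`; then `y' ^ 2 = q x'` (`field_simp; ring`).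
The kernel of `ℂ[X, Y] → L`, `(X, Y) ↦ (x, y)` is generated by `Y ^ 2 - q X`, so it is the kernel of
`(X, Y) ↦ (x', y')` too (`x'` is transcendental, and `y'` is not in `ℂ(x')` because `q` is not a square);
this gives `σ`. Let `c` be the place with a pole at `x` (it is unique, with `c.ord x = -2`,
`c.ord y = -3`: `y ^ 2 = q x` and `[L : ℂ(x)] = 2`). `c.ord x' = -2`, so the restriction of `c` to
`σ L` is the place corresponding to `c`, and it is unramified: `e = 1`. `[L : σ L] = 4`: `[ℂ(x) : ℂ(x')] = 4`,
`[σ L : ℂ(x')] = 2 = [L : ℂ(x)]`. (`≥ 2` suffices.) -/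
def S_ptd : Prop :=
  ∀ (L : Type) [Field L] [Algebra ℂ L] [IsFF ℂ L], canDeg ℂ L ≤ 0 → ∀ (M : ℕ)
    (v : Fin (M + 1) → L), Nonconst v →
    ∃ (c : Place ℂ L) (a : Fin (M + 1) → ℂ), a ∈ VarPts ℂ v ∧ (PointedMaps v c a).Infinite

/-- (W5) **Brody's theorem for projective varieties**: there are no nonconstant entire curves if and
only if the Kobayashi pseudodistance separates points.

Proof. The set `X` of the points with `IsPoint x` is closed in the projective space. `→`: Brody's theorem
for closed subsets of projective spaces of any dimension is in `Pool/Agent/Q72/OK` (helper72): `Brody.brody`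
and `Kob.disc_lip` (use `I = Empty`, no orbifold condition, `S` the image of `X` under the map `Phi` to the
projection matrices; `Lift.exists_lift` lifts entire maps to matrices to entire vectors, and
`Pool.Agent.Y221.PD.curve_of_entire` removes the common zeros). So `dist (Phi (g s)) (Phi (g t)) ≤ C * cost s t`
for all discs, hence `dist (Phi a) (Phi b) ≤ C' * l` for all chains of length `l` (induction; `poin` is one
half of `cost`, with the arguments in a different order).
`←`: if `f` is an entire curve with `f α`, `f β` different points, then the discs `z ↦ f (R z)` give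
chains of length `poin (α / R) (β / R)`, which tends to zero for `R → ∞`. -/
def S_kob : Prop :=
  ∀ (M : ℕ) (K : Type) [Field K] [Algebra ℂ K] (x : Fin (M + 1) → K),
    (∀ f, ¬ EntireCurve x f) ↔
    ∀ a b : Fin (M + 1) → ℂ, IsPoint x a → IsPoint x b → ¬ SameP a b →
      ∃ ε : ℝ, 0 < ε ∧ ∀ l : ℝ, Chain x a b l → ε ≤ l

end Pool.Agent.Q103.SF
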