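import Pool.Agent.Y216.Point
import Pool.Agent.Q103.SF.Stm2

/-!
# Pointed maps to varieties without curves of genus `≤ 1`
-/

set_option autoImplicit false
set_option linter.unusedVariables false

open FF MvPolynomial Pool.Agent.W603.LV Pool.Agent.W603.PV Pool.Agent.W602.RG
open Pool.Agent.W602.GT (val IsForm VarPts SubVar GeneralType val_smul)
open Pool.Agent.Y216 (OnVar canDeg_ratFunc)
open scoped LinearAlgebra.Projectivization

namespace Pool.Agent.Q103.SF

variable {k : Type} [Field k] {n : ℕ} {K : Type} [Field K] [Algebra k K]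

/-- **Pointed maps** (the proof of `Pool.Agent.Y216.pointed_of_bound`, for an empty closed subset). -/
theorem pointed_all [IsAlgClosed k] [CharZero k] {y : Fin (n + 1) → K} {B : ℕ}
    (hB : ∀ (L : Type) [Field L] [Algebra k L] [IsFF k L] (f : Fin (n + 1) → L), OnVar k y f →
      pht k f ≤ B * max (canDeg k L) 0)
    (L : Type) [Field L] [Algebra k L] [IsFF k L] (c : Place k L) (x : Fin (n + 1) → k)
    (hx : x ∈ VarPts k y) : (PointedMaps y c x).Finite := by
  classical
  by_contra hfin
  have hinf : (PointedMaps y c x).Infinite := hfin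
  obtain ⟨j0, hj0⟩ := Function.ne_iff.1 hx.1
  have hj0 : x j0 ≠ 0 := hj0
  set M : Set (Fin (n + 1) → L) := {f | f j0 = 1 ∧ (∀ H : MvPolynomial (Fin (n + 1)) k, IsForm H →
    val y H = 0 → val f H = 0) ∧ HasValue c x f} with hM
  have hMinf : M.Infinite := by
    intro hMfin
    obtain ⟨φ0, -⟩ := hinf.nonempty
    let g : (Fin (n + 1) → L) → ℙ L (Fin (n + 1) → L) := fun f =>
      if h : f ≠ 0 then Projectivization.mk L f h else φ0
    refine hinf ((hMfin.image g).subset ?_)
    rintro φ ⟨f, hf, hmap, hval, rfl⟩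
    have hfne : ∃ j, f j ≠ 0 := Function.ne_iff.1 hf
    have hfj0 := Pool.Agent.W273.RG.FNW.hv_ne hfne hval hj0
    have hc0 : (f j0)⁻¹ ≠ 0 := inv_ne_zero hfj0
    have hf' : (fun j => (f j0)⁻¹ * f j) ≠ 0 := by
      intro h0
      have := congrFun h0 j0
      simp only [Pi.zero_apply] at this
      exact (mul_ne_zero hc0 hfj0) this
    refine ⟨fun j => (f j0)⁻¹ * f j, ⟨inv_mul_cancel₀ hfj0, ?_,
      Pool.Agent.W273.RG.FNW.hv_scale hfne hval hc0⟩, ?_⟩
    · intro H hH hyH
      have h3 := hmap H hH hyH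
      obtain ⟨e, he⟩ := hH
      rw [val_smul he, h3, mul_zero]
    · change (if h : (fun j => (f j0)⁻¹ * f j) ≠ 0 then
        Projectivization.mk L (fun j => (f j0)⁻¹ * f j) h else φ0) = _
      rw [dif_pos hf', Projectivization.mk_eq_mk_iff']
      exact ⟨(f j0)⁻¹, by funext j; rfl⟩
  have hvalues : ∀ f ∈ M, ∀ j, f j = algebraMap k L (x j / x j0) ∨
      0 < c.ord (f j - algebraMap k L (x j / x j0)) := by
    rintro f ⟨hf0, hmap, hval⟩ j
    have hp := Pool.Agent.W273.RG.FNW.pord_zero hval hj0 hf0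
    have hxj0 : algebraMap k L (x j0) ≠ 0 := (map_ne_zero _).2 hj0
    have e : algebraMap k L (x j0) * f j - algebraMap k L (x j) * f j0 =
        algebraMap k L (x j0) * (f j - algebraMap k L (x j / x j0)) := by
      rw [hf0, map_div₀]
      field_simp
    rcases hval j0 j with h3 | h3
    · left
      rw [e] at h3
      exact sub_eq_zero.1 ((mul_eq_zero.1 h3).resolve_left hxj0)
    · by_cases h4 : f j - algebraMap k L (x j / x j0) = 0
      · left; exact sub_eq_zero.1 h4
      · right
        rw [e, c.ord_mul hxj0 h4, c.ord_const hj0, zero_add, hp] at h3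
        exact h3
  have hbound : ∀ f ∈ M, pht k f ≤ B * max (canDeg k L) 0 := by
    intro f hf
    obtain ⟨hf0, hmap, hval⟩ := hf
    exact hB L f ⟨⟨j0, by rw [hf0]; exact one_ne_zero⟩, hmap⟩
  have hhgt : ∀ f ∈ M, ∀ j, hgt k (f j) ≤ B * max (canDeg k L) 0 := by
    intro f hf j
    have h5 := hbound f hf
    by_cases h0 : f j = 0
    · have h7 : hgt k (f j) = 0 := by
        rw [h0]
        exact hgt_algebraic (k := k) (K := L) (f := 0) isAlgebraic_zero
      rw [h7]
      positivity
    · have h6 := Pool.Agent.W603.CX.hgt_le_pht (k := k) f (j := j) (l := j0) h0 (by rw [hf.1]; exact one_ne_zero)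
      rw [hf.1, div_one] at h6
      exact h6.trans h5
  -- bend and break
  let z : ℕ ↪ M := hMinf.natEmbedding M
  obtain ⟨g, ⟨j1, hj1⟩, hg1, hg2⟩ := Pool.Agent.TH152.BB.bb_val Pool.Agent.TH152.BB.bb_all c
    (fun m => (z m : Fin (n + 1) → L)) (fun j => x j / x j0) (B * max (canDeg k L) 0)
    (fun a b hab => z.injective (Subtype.ext hab)) (fun m j => hvalues _ (z m).2 j)
    (fun m j => hhgt _ (z m).2 j)
  have hg0 : g j0 = 1 := by
    have h1 := hg1 (X j0 - 1) (fun m => by
      rw [map_sub, aeval_X, map_one, (z m).2.1, sub_self])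
    rw [map_sub, aeval_X, map_one] at h1
    exact sub_eq_zero.1 h1
  have hgne : ∃ j, g j ≠ 0 := ⟨j0, by rw [hg0]; exact one_ne_zero⟩
  have h1 := hB (RatFunc k) g ⟨hgne, fun H hH hyH => hg1 H fun m => (z m).2.2.1 H hH hyH⟩
  rw [canDeg_ratFunc] at h1
  apply hj1
  apply Pool.Agent.Y216.const_of_hgt
  by_cases h0 : g j1 = 0
  · rw [h0]
    exact (hgt_algebraic (k := k) (K := RatFunc k) (f := 0) isAlgebraic_zero).le
  · have h2 := Pool.Agent.W603.CX.hgt_le_pht (k := k) g (j := j1) (l := j0) h0 (by rw [hg0]; exact one_ne_zero)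
    rw [hg0, div_one] at h2
    simpa using h2.trans h1

end Pool.Agent.Q103.SF
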