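import Pool.Agent.Q103.SF.Conv
import Pool.Agent.Q103.SF.Pointed
import Pool.Agent.Q285.SFG.Gpc
import Pool.Agent.Q24.SF.W3

/-!
# Surfaces which carry a map with many preperiodic points
-/

set_option autoImplicit false
set_option maxHeartbeats 400000
set_option linter.overlappingInstances false
set_option linter.unusedSectionVars false

namespace Pool.Agent.Q103.SF

open FF Filter Polynomial
open Pool.Agent.W602.GT Metric Topology
open Pool.Agent.Y221.PD
open Pool.Agent.Y221.BD (EntireCurve)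
open Pool.Agent.Y216 (OnVar)
open Pool.Agent.W603.LV (canDeg)
open Pool.Agent.W603.PV (pht)
open Pool.Agent.Q271.RC (Nonconst)
open Pool.Agent.TH466.QG (SubOf)
open Pool.Agent.Q103.EC (HypOff ManyPrep)
open Pool.Agent.W602.RG (PointedMaps)
open Pool.Agent.Q103.KO (IsPoint SameP Chain)

variable {M : ℕ} {K : Type} [Field K] [Algebra ℂ K] {x : Fin (M + 1) → K}

theorem pht_const {L : Type} [Field L] [Algebra ℂ L] [IsFF ℂ L] {v : Fin (M + 1) → L}
    (hv : ∃ j, v j ≠ 0) (h : ¬ Nonconst v) : pht ℂ v ≤ 0 := by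
  by_contra hcon
  exact h (Pool.Agent.Q96.OS.nonconst_of_pht hv (not_le.1 hcon))

theorem special (hw : S_wei) (htr : Algebra.trdeg ℂ K = (2 : ℕ)) (hx : x ≠ 0)
    (hgen : coords ℂ x = ⊤) {R : MvPolynomial (Fin (M + 1)) ℂ} (hR : HypOff x R) :
    SpecialSets x := by
  have hG1 : S_gpc := Pool.Agent.Q285.SFG.t_gpc
  have hlow : S_low := Pool.Agent.Q24.SF.low_curve hw Pool.Agent.Q111.SF.cls
  obtain ⟨h1, h2, h3⟩ := alg htr hx hgen hR
  exact
    { finite := h1
      entire := fun f hf => entire_low hG1 htr hx hgen hR.form hR.ne hf (hR.curve f hf)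
      curves := fun V hV => curve_of_low hlow hV
      elliptic := fun V hV => ell_of_low hV
      mero := fun g u hu => mero_low hG1 htr hx hgen hR h1 hu
      disc := fun f hf => disc_low hG1 htr hx hgen hR.form hR.ne hf (hR.disc f hf)
      sub := h3
      degree := h2 }

/-- the notions of hyperbolicity for a variety with the special sets of `SpecialSets` -/
theorem tfae (hw : S_wei) (hp : S_ptd) (hk : S_kob) (h : SpecialSets x) :
    List.TFAE [KobayashiHyp x, BrodyHyp x, PicardHyp x, NoMero x, NoElliptic x, AlgHyp x,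
      AllGeneral x, GeomHyp x, lowCurves x = ∅] := by
  tfae_have 1 ↔ 2 := (hk M K x).symm
  tfae_have 9 → 2 := by
    intro h0 f hf
    have := h.entire f hf
    rw [h0] at this
    exact this
  tfae_have 9 → 3 := by
    intro h0 f hf
    have := h.disc f hf
    rw [h0] at this
    exact this
  tfae_have 9 → 4 := by
    intro h0 g u hu
    have := h.mero g u hu
    rw [h0] at this
    exact this
  tfae_have 2 → 9 := by
    intro h0
    rw [Set.eq_empty_iff_forall_notMem]
    intro V hV
    obtain ⟨f, hf, -⟩ := h.curves V hV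
    exact h0 f hf
  tfae_have 3 → 2 := by
    intro h0 f hf
    exact h0 _ (disc_of_entire hf)
  tfae_have 4 → 2 := by
    intro h0 f hf
    obtain ⟨i, j, a, b, hab⟩ := hf.nonconst
    refine h0 1 (fun i t => f i (t 0)) ⟨fun i => ?_, fun G hG hGx t => hf.mem G hG hGx _, i, j,
      fun _ => a, fun _ => b, hab⟩
    exact (hf.hol i).comp (by fun_prop)
  tfae_have 5 → 9 := by
    intro h0
    rw [Set.eq_empty_iff_forall_notMem]
    intro V hV
    obtain ⟨E, _, _, _, v, hE, hv, hn, -⟩ := h.elliptic V hV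
    exact h0 E hE v hv hn
  tfae_have 9 → 6 := by
    intro h0
    obtain ⟨A, hA⟩ := h.degree
    refine ⟨A, fun L _ _ _ v hv hn => ?_⟩
    rcases hA L v hv hn with h1 | h1
    · exact h1
    · rw [h0] at h1
      exact h1.elim
  tfae_have 6 → 9 := by
    rintro ⟨A, hA⟩
    rw [Set.eq_empty_iff_forall_notMem]
    rintro V ⟨L, _, _, _, v, hv, hgen, hc, rfl⟩
    have hn := nonconst_of_low hv hgen
    have h1 := hA L v hv hn
    have h2 := Pool.Agent.Q96.LS.pht_pos v hn
    have h3 : (A : ℤ) * canDeg ℂ L ≤ 0 := mul_nonpos_of_nonneg_of_nonpos (by positivity) hc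
    omega
  tfae_have 9 → 7 := by
    intro h0 E _ _ w z hz hw ht
    rcases h.sub E w z hz hw ht with h1 | h1
    · exact h1
    · rw [h0] at h1
      exact h1.elim
  tfae_have 7 → 9 := by
    intro h0
    rw [Set.eq_empty_iff_forall_notMem]
    rintro V ⟨L, _, _, _, v, hv, hgen, hc, rfl⟩
    have hne : v ≠ 0 := by
      obtain ⟨j, hj⟩ := hv.1
      intro h
      exact hj (congrFun h j)
    have h1 := h0 L 1 v ⟨hne, hgen, hv.2⟩ le_rfl (by
      rw [IsFF.trdeg (k := ℂ) (K := L)]
      simp)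
    have h2 := pos_of_gt h1
    omega
  tfae_have 6 → 8 := by
    rintro ⟨A, hA⟩ E _ _ _ c a ha
    refine pointed_all (B := A) (fun L _ _ _ f hf => ?_) E c a ha
    by_cases hn : Nonconst f
    · have h1 := hA L f hf hn
      have h2 : (A : ℤ) * canDeg ℂ L ≤ A * max (canDeg ℂ L) 0 :=
        mul_le_mul_of_nonneg_left (le_max_left _ _) (by positivity)
      exact h1.trans h2
    · exact (pht_const hf.1 hn).trans (by positivity)
  tfae_have 8 → 9 := by
    intro h0
    rw [Set.eq_empty_iff_forall_notMem]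
    rintro V ⟨L, _, _, _, v, hv, hgen, hc, rfl⟩
    obtain ⟨c, a, ha, hinf⟩ := hp L hc M v (nonconst_of_low hv hgen)
    apply hinf
    refine (h0 L c a ⟨ha.1, fun G hG hGx => ha.2 G hG (hv.2 G hG hGx)⟩).subset ?_
    rintro φ ⟨f, hf, h1, h2, h3⟩
    exact ⟨f, hf, fun H hH hHx => h1 H hH (hv.2 H hH hHx), h2, h3⟩
  tfae_have 2 → 5 := by
    intro h0 E _ _ _ hE v hv hn
    obtain ⟨f, hf, -⟩ := curve_of_ell hw hE hv hn
    exact h0 f hf
  tfae_finish

end Pool.Agent.Q103.SF
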